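import Mathlib

namespace Pool.Agent.Results.MP_0a7d83_co.DumbbellNF

open Finset

/-- `F` is a facet (inclusion-maximal face) of `Δ`. -/
def IsFacet {V : Type*} (Δ : Set (Finset V)) (F : Finset V) : Prop :=
  F ∈ Δ ∧ ∀ G ∈ Δ, F ⊆ G → G = F

/-- The facet ideal of `Δ` in the polynomial ring `k[x_v : v ∈ V]`. -/
noncomputable def facetIdeal (k : Type*) [Field k] {V : Type*} (Δ : Set (Finset V)) :
    Ideal (MvPolynomial V k) :=
  Ideal.span {f | ∃ F, IsFacet Δ F ∧ f = ∏ v ∈ F, MvPolynomial.X v}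

/-- The NF-complex of `Δ`: the Stanley-Reisner complex of the facet ideal. -/
def delta (k : Type*) [Field k] {V : Type*} (Δ : Set (Finset V)) : Set (Finset V) :=
  {F | ∏ v ∈ F, (MvPolynomial.X v : MvPolynomial V k) ∉ facetIdeal k Δ}

/-- Isomorphism of complexes. -/
def Iso {V W : Type*} (Δ : Set (Finset V)) (Γ : Set (Finset W)) : Prop :=
  ∃ π : V ≃ W, ∀ F : Finset V, F ∈ Δ ↔ F.map π.toEmbedding ∈ Γ

/-- The complex whose facets are the edges of the graph `G`. -/
def graphComplex {V : Type*} (G : SimpleGraph V) : Set (Finset V) :=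
  {F | ∃ u v, G.Adj u v ∧ ∀ x ∈ F, x = u ∨ x = v}

/-- Adjacency in the dumbbell graph. -/
def dAdj (n m : ℕ) : Fin n ⊕ Fin m → Fin n ⊕ Fin m → Prop
  | .inl a, .inl b => a ≠ b
  | .inr a, .inr b => a ≠ b
  | .inl a, .inr b => a.val = 0 ∧ b.val = 0
  | .inr a, .inl b => a.val = 0 ∧ b.val = 0

/-- The dumbbell graph `B_{n,m}`: two disjoint complete graphs on `n` and `m` vertices
joined by one bridge between their first vertices. -/
def dumbbellGraph (n m : ℕ) : SimpleGraph (Fin n ⊕ Fin m) where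
  Adj := dAdj n m
  symm := ⟨by
    intro x y h
    rcases x with a | a <;> rcases y with b | b <;> simp only [dAdj] at h ⊢
    · exact h.symm
    · exact h.symm
    · exact h.symm
    · exact h.symm⟩
  loopless := ⟨by
    intro x h
    rcases x with a | a <;> simp [dAdj] at h⟩

/-- `B_{n,m}` as a complex. -/
def dumbbell (n m : ℕ) : Set (Finset (Fin n ⊕ Fin m)) := graphComplex (dumbbellGraph n m)

/-! ### combinatorial form of delta -/

def nf {V : Type*} (Δ : Set (Finset V)) : Set (Finset V) :=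
  {F | ∀ G, IsFacet Δ G → ¬ G ⊆ F}

/-- exponent vector of a squarefree monomial -/
noncomputable def expo {V : Type*} (F : Finset V) : V →₀ ℕ := ∑ v ∈ F, Finsupp.single v 1

theorem prod_X_eq {V : Type*} (k : Type*) [Field k] (F : Finset V) :
    ∏ v ∈ F, (MvPolynomial.X v : MvPolynomial V k) = MvPolynomial.monomial (expo F) 1 := by
  classical
  unfold expo
  rw [MvPolynomial.monomial_sum_one]
  rfl

theorem expo_apply {V : Type*} [DecidableEq V] (F : Finset V) (x : V) :
    expo F x = if x ∈ F then 1 else 0 := by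
  unfold expo
  rw [Finsupp.finsetSum_apply]
  simp [Finsupp.single_apply]

theorem expo_le_iff {V : Type*} (F G : Finset V) : expo G ≤ expo F ↔ G ⊆ F := by
  classical
  constructor
  · intro h x hx
    have := h x
    rw [expo_apply, expo_apply] at this
    by_contra hc
    simp [hx, hc] at this
  · intro h x
    rw [expo_apply, expo_apply]
    by_cases hx : x ∈ G
    · simp [hx, h hx]
    · simp [hx]

theorem delta_eq_nf (k : Type*) [Field k] {V : Type*} (Δ : Set (Finset V)) :
    delta k Δ = nf Δ := by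
  classical
  ext F
  have hset : {f : MvPolynomial V k | ∃ F, IsFacet Δ F ∧ f = ∏ v ∈ F, MvPolynomial.X v}
      = (fun s => MvPolynomial.monomial s (1 : k)) '' (expo '' {F | IsFacet Δ F}) := by
    ext f
    constructor
    · rintro ⟨G, hG, rfl⟩
      exact ⟨expo G, ⟨G, hG, rfl⟩, (prod_X_eq k G).symm⟩
    · rintro ⟨s, ⟨G, hG, rfl⟩, rfl⟩
      exact ⟨G, hG, (prod_X_eq k G).symm⟩
  have key : (∏ v ∈ F, (MvPolynomial.X v : MvPolynomial V k)) ∈ facetIdeal k Δ ↔
      ∃ G, IsFacet Δ G ∧ G ⊆ F := by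
    unfold facetIdeal
    rw [hset, MvPolynomial.mem_ideal_span_monomial_image, prod_X_eq]
    rw [MvPolynomial.support_monomial]
    simp only [one_ne_zero, if_false, Finset.mem_singleton, forall_eq, Set.mem_image,
      Set.mem_ofPred_eq]
    constructor
    · rintro ⟨s, ⟨G, hG, rfl⟩, hs⟩
      exact ⟨G, hG, (expo_le_iff F G).1 hs⟩
    · rintro ⟨G, hG, hs⟩
      exact ⟨expo G, ⟨G, hG, rfl⟩, (expo_le_iff F G).2 hs⟩
  show (¬ _) ↔ (∀ G, IsFacet Δ G → ¬ G ⊆ F)
  rw [key]
  push Not
  rfl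

/-! ### counting vectors -/

section Count

variable {V : Type*} [Fintype V] [DecidableEq V] (col : V → Fin 4)

def cnt (t : Fin 4) (F : Finset V) : ℕ := (F.filter (fun x => col x = t)).card

theorem cnt_mono (t : Fin 4) {F G : Finset V} (h : F ⊆ G) : cnt col t F ≤ cnt col t G :=
  Finset.card_le_card (Finset.filter_subset_filter _ h)

theorem cnt_insert_same {F : Finset V} {x : V} (hx : x ∉ F) :
    cnt col (col x) (insert x F) = cnt col (col x) F + 1 := by
  unfold cnt
  rw [Finset.filter_insert, if_pos rfl, Finset.card_insert_of_notMem]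
  simp [hx]

theorem cnt_insert_ne {F : Finset V} {x : V} {t : Fin 4} (ht : col x ≠ t) :
    cnt col t (insert x F) = cnt col t F := by
  unfold cnt
  rw [Finset.filter_insert, if_neg ht]

theorem exists_new (t : Fin 4) (F : Finset V) (h : cnt col t F < cnt col t univ) :
    ∃ x, x ∉ F ∧ col x = t := by
  by_contra hc
  push Not at hc
  have : cnt col t univ ≤ cnt col t F := by
    unfold cnt
    apply Finset.card_le_card
    intro x hx
    simp only [Finset.mem_filter, Finset.mem_univ, true_and] at hx ⊢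
    refine ⟨?_, hx⟩
    by_contra hxF
    exact hc x hxF hx
  omega

theorem exists_old (t : Fin 4) (F : Finset V) (h : 0 < cnt col t F) :
    ∃ x, x ∈ F ∧ col x = t := by
  unfold cnt at h
  obtain ⟨x, hx⟩ := Finset.card_pos.1 h
  simp only [Finset.mem_filter] at hx
  exact ⟨x, hx.1, hx.2⟩

/-- the family of sets whose count vector satisfies `P` -/
def fam (P : ℕ → ℕ → ℕ → ℕ → Prop) : Set (Finset V) :=
  {F | P (cnt col 0 F) (cnt col 1 F) (cnt col 2 F) (cnt col 3 F)}

def Mono (P : ℕ → ℕ → ℕ → ℕ → Prop) : Prop :=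
  ∀ e i h j e' i' h' j', e ≤ e' → i ≤ i' → h ≤ h' → j ≤ j' → P e' i' h' j' → P e i h j

theorem nf_fam (P P' : ℕ → ℕ → ℕ → ℕ → Prop) (mono : Mono P) (mono' : Mono P')
    (box : ∀ e i h j, P e i h j → e ≤ cnt col 0 univ ∧ i ≤ cnt col 1 univ ∧
      h ≤ cnt col 2 univ ∧ j ≤ cnt col 3 univ)
    (up : ∀ e i h j, P e i h j → ¬ P (e+1) i h j → ¬ P e (i+1) h j → ¬ P e i (h+1) j →
      ¬ P e i h (j+1) → ¬ P' e i h j)
    (down : ∀ e i h j, e ≤ cnt col 0 univ → i ≤ cnt col 1 univ → h ≤ cnt col 2 univ →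
      j ≤ cnt col 3 univ → ¬ P' e i h j →
      (e = 0 ∨ P' (e-1) i h j) → (i = 0 ∨ P' e (i-1) h j) → (h = 0 ∨ P' e i (h-1) j) →
      (j = 0 ∨ P' e i h (j-1)) →
      P e i h j ∧ ¬ P (e+1) i h j ∧ ¬ P e (i+1) h j ∧ ¬ P e i (h+1) j ∧ ¬ P e i h (j+1)) :
    nf (fam col P) = fam col P' := by
  have colcases : ∀ x, col x = 0 ∨ col x = 1 ∨ col x = 2 ∨ col x = 3 := by
    intro x
    generalize col x = t
    fin_cases t <;> simp
  ext F
  constructor
  · intro hF
    by_contra hc
    -- minimal subset not in P'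
    have hex : ∃ G : Finset V, G ⊆ F ∧ G ∉ fam col P' ∧
        ∀ H : Finset V, H ⊂ G → H ∈ fam col P' := by
      have hfin : {G : Finset V | G ⊆ F ∧ G ∉ fam col P'}.Finite := Set.toFinite _
      obtain ⟨G, hG⟩ := hfin.exists_minimal ⟨F, Finset.Subset.refl F, hc⟩
      refine ⟨G, hG.1.1, hG.1.2, ?_⟩
      intro H hH
      by_contra hcH
      have h1 := hG.2 (show H ∈ {G : Finset V | G ⊆ F ∧ G ∉ fam col P'} from
        ⟨hH.1.trans hG.1.1, hcH⟩) hH.1
      exact hH.2 h1
    obtain ⟨G, hGF, hGn, hmin⟩ := hex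
    have herase : ∀ t : Fin 4, cnt col t G = 0 ∨ ∃ x, x ∈ G ∧ col x = t ∧ G.erase x ∈ fam col P' := by
      intro t
      rcases Nat.eq_zero_or_pos (cnt col t G) with h0 | hpos
      · exact Or.inl h0
      · obtain ⟨x, hx, hxt⟩ := exists_old col t G hpos
        exact Or.inr ⟨x, hx, hxt, hmin _ (Finset.erase_ssubset hx)⟩
    have herc : ∀ x ∈ G, ∀ t, cnt col t G = cnt col t (G.erase x) + if col x = t then 1 else 0 := by
      intro x hx t
      have h1 : insert x (G.erase x) = G := Finset.insert_erase hx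
      by_cases ht : col x = t
      · subst ht
        rw [if_pos rfl]
        conv_lhs => rw [← h1]
        rw [cnt_insert_same col (Finset.notMem_erase x G)]
      · rw [if_neg ht, add_zero]
        conv_lhs => rw [← h1]
        rw [cnt_insert_ne col ht]
    have hd := down (cnt col 0 G) (cnt col 1 G) (cnt col 2 G) (cnt col 3 G)
      (cnt_mono col 0 (Finset.subset_univ _)) (cnt_mono col 1 (Finset.subset_univ _))
      (cnt_mono col 2 (Finset.subset_univ _)) (cnt_mono col 3 (Finset.subset_univ _)) hGn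
      (by
        rcases herase 0 with h | ⟨x, hx, hxt, hm⟩
        · exact Or.inl h
        · right
          have e0 := herc x hx 0
          have e1 := herc x hx 1
          have e2 := herc x hx 2
          have e3 := herc x hx 3
          rw [hxt] at e0 e1 e2 e3
          simp at e0 e1 e2 e3
          rw [e0, e1, e2, e3]
          exact hm)
      (by
        rcases herase 1 with h | ⟨x, hx, hxt, hm⟩
        · exact Or.inl h
        · right
          have e0 := herc x hx 0
          have e1 := herc x hx 1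
          have e2 := herc x hx 2
          have e3 := herc x hx 3
          rw [hxt] at e0 e1 e2 e3
          simp at e0 e1 e2 e3
          rw [e0, e1, e2, e3]
          exact hm)
      (by
        rcases herase 2 with h | ⟨x, hx, hxt, hm⟩
        · exact Or.inl h
        · right
          have e0 := herc x hx 0
          have e1 := herc x hx 1
          have e2 := herc x hx 2
          have e3 := herc x hx 3
          rw [hxt] at e0 e1 e2 e3
          simp at e0 e1 e2 e3
          rw [e0, e1, e2, e3]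
          exact hm)
      (by
        rcases herase 3 with h | ⟨x, hx, hxt, hm⟩
        · exact Or.inl h
        · right
          have e0 := herc x hx 0
          have e1 := herc x hx 1
          have e2 := herc x hx 2
          have e3 := herc x hx 3
          rw [hxt] at e0 e1 e2 e3
          simp at e0 e1 e2 e3
          rw [e0, e1, e2, e3]
          exact hm)
    obtain ⟨hP, hn0, hn1, hn2, hn3⟩ := hd
    refine hF G ⟨hP, ?_⟩ hGF
    intro H hH hGH
    by_contra hne
    have hss : G ⊂ H := by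
      refine ⟨hGH, ?_⟩
      intro hHG
      exact hne (Finset.Subset.antisymm hHG hGH)
    obtain ⟨x, hxH, hxG⟩ := Finset.exists_of_ssubset hss
    have hins : insert x G ⊆ H := Finset.insert_subset hxH hGH
    have hPi : P (cnt col 0 (insert x G)) (cnt col 1 (insert x G)) (cnt col 2 (insert x G))
        (cnt col 3 (insert x G)) :=
      mono _ _ _ _ _ _ _ _ (cnt_mono col 0 hins) (cnt_mono col 1 hins) (cnt_mono col 2 hins)
        (cnt_mono col 3 hins) hH
    have hs := cnt_insert_same col hxG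
    rcases colcases x with hx | hx | hx | hx
    · rw [hx] at hs
      rw [hs, cnt_insert_ne col (by rw [hx]; decide), cnt_insert_ne col (by rw [hx]; decide),
        cnt_insert_ne col (by rw [hx]; decide)] at hPi
      exact hn0 hPi
    · rw [hx] at hs
      rw [hs, cnt_insert_ne col (t := 0) (by rw [hx]; decide),
        cnt_insert_ne col (t := 2) (by rw [hx]; decide),
        cnt_insert_ne col (t := 3) (by rw [hx]; decide)] at hPi
      exact hn1 hPi
    · rw [hx] at hs
      rw [hs, cnt_insert_ne col (t := 0) (by rw [hx]; decide),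
        cnt_insert_ne col (t := 1) (by rw [hx]; decide),
        cnt_insert_ne col (t := 3) (by rw [hx]; decide)] at hPi
      exact hn2 hPi
    · rw [hx] at hs
      rw [hs, cnt_insert_ne col (t := 0) (by rw [hx]; decide),
        cnt_insert_ne col (t := 1) (by rw [hx]; decide),
        cnt_insert_ne col (t := 2) (by rw [hx]; decide)] at hPi
      exact hn3 hPi
  · intro hF G hG hGF
    have hG' : P' (cnt col 0 G) (cnt col 1 G) (cnt col 2 G) (cnt col 3 G) :=
      mono' _ _ _ _ _ _ _ _ (cnt_mono col 0 hGF) (cnt_mono col 1 hGF) (cnt_mono col 2 hGF)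
        (cnt_mono col 3 hGF) hF
    have hadd : ∀ x, x ∉ G → ¬ P (cnt col 0 (insert x G)) (cnt col 1 (insert x G))
        (cnt col 2 (insert x G)) (cnt col 3 (insert x G)) := by
      intro x hx hP
      have := hG.2 (insert x G) hP (Finset.subset_insert x G)
      exact hx (by rw [← this]; exact Finset.mem_insert_self x G)
    refine up _ _ _ _ hG.1 ?_ ?_ ?_ ?_ hG'
    · intro hP
      obtain ⟨x, hx, hxt⟩ := exists_new col 0 G (by have := (box _ _ _ _ hP).1; omega)
      refine hadd x hx ?_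
      have hs := cnt_insert_same col hx
      rw [hxt] at hs
      rw [hs, cnt_insert_ne col (t := 1) (by rw [hxt]; decide),
        cnt_insert_ne col (t := 2) (by rw [hxt]; decide),
        cnt_insert_ne col (t := 3) (by rw [hxt]; decide)]
      exact hP
    · intro hP
      obtain ⟨x, hx, hxt⟩ := exists_new col 1 G (by have := (box _ _ _ _ hP).2.1; omega)
      refine hadd x hx ?_
      have hs := cnt_insert_same col hx
      rw [hxt] at hs
      rw [hs, cnt_insert_ne col (t := 0) (by rw [hxt]; decide),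
        cnt_insert_ne col (t := 2) (by rw [hxt]; decide),
        cnt_insert_ne col (t := 3) (by rw [hxt]; decide)]
      exact hP
    · intro hP
      obtain ⟨x, hx, hxt⟩ := exists_new col 2 G (by have := (box _ _ _ _ hP).2.2.1; omega)
      refine hadd x hx ?_
      have hs := cnt_insert_same col hx
      rw [hxt] at hs
      rw [hs, cnt_insert_ne col (t := 0) (by rw [hxt]; decide),
        cnt_insert_ne col (t := 1) (by rw [hxt]; decide),
        cnt_insert_ne col (t := 3) (by rw [hxt]; decide)]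
      exact hP
    · intro hP
      obtain ⟨x, hx, hxt⟩ := exists_new col 3 G (by have := (box _ _ _ _ hP).2.2.2; omega)
      refine hadd x hx ?_
      have hs := cnt_insert_same col hx
      rw [hxt] at hs
      rw [hs, cnt_insert_ne col (t := 0) (by rw [hxt]; decide),
        cnt_insert_ne col (t := 1) (by rw [hxt]; decide),
        cnt_insert_ne col (t := 2) (by rw [hxt]; decide)]
      exact hP

/-- every count vector in the box is realised -/
theorem exists_cnt (a0 a1 a2 a3 : ℕ) (h0 : a0 ≤ cnt col 0 univ) (h1 : a1 ≤ cnt col 1 univ)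
    (h2 : a2 ≤ cnt col 2 univ) (h3 : a3 ≤ cnt col 3 univ) :
    ∃ F : Finset V, cnt col 0 F = a0 ∧ cnt col 1 F = a1 ∧ cnt col 2 F = a2 ∧ cnt col 3 F = a3 := by
  obtain ⟨U0, hU0, c0⟩ := Finset.exists_subset_card_eq h0
  obtain ⟨U1, hU1, c1⟩ := Finset.exists_subset_card_eq h1
  obtain ⟨U2, hU2, c2⟩ := Finset.exists_subset_card_eq h2
  obtain ⟨U3, hU3, c3⟩ := Finset.exists_subset_card_eq h3
  have k0 : ∀ x ∈ U0, col x = 0 := fun x hx => by simpa using hU0 hx
  have k1 : ∀ x ∈ U1, col x = 1 := fun x hx => by simpa using hU1 hx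
  have k2 : ∀ x ∈ U2, col x = 2 := fun x hx => by simpa using hU2 hx
  have k3 : ∀ x ∈ U3, col x = 3 := fun x hx => by simpa using hU3 hx
  refine ⟨U0 ∪ U1 ∪ U2 ∪ U3, ?_, ?_, ?_, ?_⟩
  · rw [← c0]
    unfold cnt
    congr 1
    ext x
    simp only [Finset.mem_filter, Finset.mem_union]
    constructor
    · rintro ⟨((h | h) | h) | h, hx⟩
      · exact h
      · rw [k1 x h] at hx; exact absurd hx (by decide)
      · rw [k2 x h] at hx; exact absurd hx (by decide)
      · rw [k3 x h] at hx; exact absurd hx (by decide)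
    · intro h
      exact ⟨Or.inl (Or.inl (Or.inl h)), k0 x h⟩
  · rw [← c1]
    unfold cnt
    congr 1
    ext x
    simp only [Finset.mem_filter, Finset.mem_union]
    constructor
    · rintro ⟨((h | h) | h) | h, hx⟩
      · rw [k0 x h] at hx; exact absurd hx (by decide)
      · exact h
      · rw [k2 x h] at hx; exact absurd hx (by decide)
      · rw [k3 x h] at hx; exact absurd hx (by decide)
    · intro h
      exact ⟨Or.inl (Or.inl (Or.inr h)), k1 x h⟩
  · rw [← c2]
    unfold cnt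
    congr 1
    ext x
    simp only [Finset.mem_filter, Finset.mem_union]
    constructor
    · rintro ⟨((h | h) | h) | h, hx⟩
      · rw [k0 x h] at hx; exact absurd hx (by decide)
      · rw [k1 x h] at hx; exact absurd hx (by decide)
      · exact h
      · rw [k3 x h] at hx; exact absurd hx (by decide)
    · intro h
      exact ⟨Or.inl (Or.inr h), k2 x h⟩
  · rw [← c3]
    unfold cnt
    congr 1
    ext x
    simp only [Finset.mem_filter, Finset.mem_union]
    constructor
    · rintro ⟨((h | h) | h) | h, hx⟩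
      · rw [k0 x h] at hx; exact absurd hx (by decide)
      · rw [k1 x h] at hx; exact absurd hx (by decide)
      · rw [k2 x h] at hx; exact absurd hx (by decide)
      · exact h
    · intro h
      exact ⟨Or.inr h, k3 x h⟩

theorem card_eq_cnt (F : Finset V) :
    F.card = cnt col 0 F + cnt col 1 F + cnt col 2 F + cnt col 3 F := by
  unfold cnt
  rw [Finset.card_eq_sum_card_fiberwise (f := col) (t := univ) (fun x _ => Finset.mem_univ _)]
  simp [Fin.sum_univ_four]

end Count

/-! ### the explicit families -/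

/-- counts of faces of the dumbbell -/
def P0 (N M : ℕ) (e i h j : ℕ) : Prop := e ≤ 1 ∧ i ≤ N ∧ h ≤ 1 ∧ j ≤ M ∧
  ((e = 0 ∧ h = 0 ∧ (i + j ≤ 1 ∨ (i = 0 ∧ j ≤ 2) ∨ (j = 0 ∧ i ≤ 2))) ∨
   (e = 1 ∧ h = 0 ∧ j = 0 ∧ i ≤ 1) ∨ (e = 0 ∧ h = 1 ∧ i = 0 ∧ j ≤ 1) ∨
   (e = 1 ∧ h = 1 ∧ i = 0 ∧ j = 0))

def P1 (N M : ℕ) (e i h j : ℕ) : Prop := e ≤ 1 ∧ i ≤ N ∧ h ≤ 1 ∧ j ≤ M ∧
  e + i ≤ 1 ∧ h + j ≤ 1 ∧ ¬ (e = 1 ∧ h = 1)

def P2 (N M : ℕ) (e i h j : ℕ) : Prop := e ≤ 1 ∧ i ≤ N ∧ h ≤ 1 ∧ j ≤ M ∧
  ((h = 0 ∧ j = 0) ∨ (e = 0 ∧ i = 0) ∨ (i = 0 ∧ j = 0))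

def P3 (N M : ℕ) (e i h j : ℕ) : Prop := e ≤ 1 ∧ i ≤ N ∧ h ≤ 1 ∧ j ≤ M ∧
  ((e = 0 ∧ h = 0) ∨ (e = 1 ∧ h = 0 ∧ i < N) ∨ (e = 0 ∧ h = 1 ∧ j < M))

def P4 (N M : ℕ) (e i h j : ℕ) : Prop := e ≤ 1 ∧ i ≤ N ∧ h ≤ 1 ∧ j ≤ M ∧
  ((e = 0 ∧ h = 0 ∧ i + j < N + M) ∨ (e = 1 ∧ h = 0 ∧ i + j < N + M ∧ ¬ (i + 1 = N ∧ j = M)) ∨
   (e = 0 ∧ h = 1 ∧ i + j < N + M ∧ ¬ (i = N ∧ j + 1 = M)) ∨
   (e = 1 ∧ h = 1 ∧ i + j + 2 ≤ N + M))

def R (N M s : ℕ) (e i h j : ℕ) : Prop := e ≤ 1 ∧ i ≤ N ∧ h ≤ 1 ∧ j ≤ M ∧
  ((e = 0 ∧ h = 0 ∧ (i + j ≤ s ∨ (i = 0 ∧ j ≤ s + 1) ∨ (j = 0 ∧ i ≤ s + 1))) ∨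
   (e = 1 ∧ h = 0 ∧ ((i + j + 1 ≤ s ∧ (i < N ∨ i + j + 2 ≤ s)) ∨ (j = 0 ∧ i ≤ s ∧ s ≤ N))) ∨
   (e = 0 ∧ h = 1 ∧ ((i + j + 1 ≤ s ∧ (j < M ∨ i + j + 2 ≤ s)) ∨ (i = 0 ∧ j ≤ s ∧ s ≤ M))) ∨
   (e = 1 ∧ h = 1 ∧ i + j + 3 ≤ s))


def Step (N M : ℕ) (P P' : ℕ → ℕ → ℕ → ℕ → Prop) : Prop :=
  (∀ e i h j, P e i h j → ¬ P (e+1) i h j → ¬ P e (i+1) h j → ¬ P e i (h+1) j →
      ¬ P e i h (j+1) → ¬ P' e i h j) ∧
  (∀ e i h j, e ≤ 1 → i ≤ N → h ≤ 1 → j ≤ M → ¬ P' e i h j →
      (e = 0 ∨ P' (e-1) i h j) → (i = 0 ∨ P' e (i-1) h j) → (h = 0 ∨ P' e i (h-1) j) →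
      (j = 0 ∨ P' e i h (j-1)) →
      P e i h j ∧ ¬ P (e+1) i h j ∧ ¬ P e (i+1) h j ∧ ¬ P e i (h+1) j ∧ ¬ P e i h (j+1))

theorem mono0 (N M : ℕ) : Mono (P0 N M) := by
  intro e i h j e' i' h' j' h1 h2 h3 h4 hp
  unfold P0 at *
  omega
theorem mono1 (N M : ℕ) : Mono (P1 N M) := by
  intro e i h j e' i' h' j' h1 h2 h3 h4 hp
  unfold P1 at *
  omega
theorem mono2 (N M : ℕ) : Mono (P2 N M) := by
  intro e i h j e' i' h' j' h1 h2 h3 h4 hp
  unfold P2 at *
  omega
theorem mono3 (N M : ℕ) : Mono (P3 N M) := by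
  intro e i h j e' i' h' j' h1 h2 h3 h4 hp
  unfold P3 at *
  omega
theorem mono4 (N M : ℕ) : Mono (P4 N M) := by
  intro e i h j e' i' h' j' h1 h2 h3 h4 hp
  unfold P4 at *
  omega
theorem monoR (N M s : ℕ) : Mono (R N M s) := by
  intro e i h j e' i' h' j' h1 h2 h3 h4 hp
  unfold R at *
  omega

set_option linter.unusedVariables false

theorem step01 (N M : ℕ) (hN : 1 ≤ N) (hM : 1 ≤ M) (hNM : 3 ≤ N + M) :
    Step N M (P0 N M) (P1 N M) := by
  constructor
  · intro e i h j a b c d f
    have he : e = 0 ∨ e = 1 := by unfold P0 at a; omega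
    have hh : h = 0 ∨ h = 1 := by unfold P0 at a; omega
    rcases he with rfl | rfl <;> rcases hh with rfl | rfl <;> simp [P0, P1] at * <;> omega
  · intro e i h j a b c d f g k l m
    have he : e = 0 ∨ e = 1 := by omega
    have hh : h = 0 ∨ h = 1 := by omega
    rcases he with rfl | rfl <;> rcases hh with rfl | rfl <;> simp [P0, P1] at * <;> omega

theorem step12 (N M : ℕ) (hN : 1 ≤ N) (hM : 1 ≤ M) (hNM : 3 ≤ N + M) :
    Step N M (P1 N M) (P2 N M) := by
  constructor
  · intro e i h j a b c d f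
    have he : e = 0 ∨ e = 1 := by unfold P1 at a; omega
    have hh : h = 0 ∨ h = 1 := by unfold P1 at a; omega
    rcases he with rfl | rfl <;> rcases hh with rfl | rfl <;> simp [P1, P2] at * <;> omega
  · intro e i h j a b c d f g k l m
    have he : e = 0 ∨ e = 1 := by omega
    have hh : h = 0 ∨ h = 1 := by omega
    rcases he with rfl | rfl <;> rcases hh with rfl | rfl <;> simp [P1, P2] at * <;> omega

theorem step23 (N M : ℕ) (hN : 1 ≤ N) (hM : 1 ≤ M) (hNM : 3 ≤ N + M) :
    Step N M (P2 N M) (P3 N M) := by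
  constructor
  · intro e i h j a b c d f
    have he : e = 0 ∨ e = 1 := by unfold P2 at a; omega
    have hh : h = 0 ∨ h = 1 := by unfold P2 at a; omega
    rcases he with rfl | rfl <;> rcases hh with rfl | rfl <;> simp [P2, P3] at * <;> omega
  · intro e i h j a b c d f g k l m
    have he : e = 0 ∨ e = 1 := by omega
    have hh : h = 0 ∨ h = 1 := by omega
    rcases he with rfl | rfl <;> rcases hh with rfl | rfl <;> simp [P2, P3] at * <;> omega

theorem step34 (N M : ℕ) (hN : 1 ≤ N) (hM : 1 ≤ M) (hNM : 3 ≤ N + M) :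
    Step N M (P3 N M) (P4 N M) := by
  constructor
  · intro e i h j a b c d f
    have he : e = 0 ∨ e = 1 := by unfold P3 at a; omega
    have hh : h = 0 ∨ h = 1 := by unfold P3 at a; omega
    rcases he with rfl | rfl <;> rcases hh with rfl | rfl <;> simp [P3, P4] at * <;> omega
  · intro e i h j a b c d f g k l m
    have he : e = 0 ∨ e = 1 := by omega
    have hh : h = 0 ∨ h = 1 := by omega
    rcases he with rfl | rfl <;> rcases hh with rfl | rfl <;> simp [P3, P4] at * <;> omega

theorem step4R (N M : ℕ) (hN : 1 ≤ N) (hM : 1 ≤ M) (hNM : 3 ≤ N + M) :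
    Step N M (P4 N M) (R N M (N + M)) := by
  constructor
  · intro e i h j a b c d f
    have he : e = 0 ∨ e = 1 := by unfold P4 at a; omega
    have hh : h = 0 ∨ h = 1 := by unfold P4 at a; omega
    rcases he with rfl | rfl <;> rcases hh with rfl | rfl <;> simp [P4, R] at * <;> omega
  · intro e i h j a b c d f g k l m
    have he : e = 0 ∨ e = 1 := by omega
    have hh : h = 0 ∨ h = 1 := by omega
    rcases he with rfl | rfl <;> rcases hh with rfl | rfl <;> simp [P4, R] at * <;> omega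

theorem stepRR (N M s : ℕ) (hN : 1 ≤ N) (hM : 1 ≤ M) (hs : 2 ≤ s) (hs2 : s + 1 ≤ N + M) :
    Step N M (R N M (s+1)) (R N M s) := by
  constructor
  · intro e i h j a b c d f
    have he : e = 0 ∨ e = 1 := by unfold R at a; omega
    have hh : h = 0 ∨ h = 1 := by unfold R at a; omega
    rcases he with rfl | rfl <;> rcases hh with rfl | rfl <;> simp [R] at * <;> omega
  · intro e i h j a b c d f g k l m
    have he : e = 0 ∨ e = 1 := by omega
    have hh : h = 0 ∨ h = 1 := by omega
    rcases he with rfl | rfl <;> rcases hh with rfl | rfl <;> simp [R] at * <;> omega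

theorem stepR0 (N M : ℕ) (hN : 1 ≤ N) (hM : 1 ≤ M) (hNM : 3 ≤ N + M) :
    Step N M (R N M 2) (P0 N M) := by
  constructor
  · intro e i h j a b c d f
    have he : e = 0 ∨ e = 1 := by unfold R at a; omega
    have hh : h = 0 ∨ h = 1 := by unfold R at a; omega
    rcases he with rfl | rfl <;> rcases hh with rfl | rfl <;> simp [R, P0] at * <;> omega
  · intro e i h j a b c d f g k l m
    have he : e = 0 ∨ e = 1 := by omega
    have hh : h = 0 ∨ h = 1 := by omega
    rcases he with rfl | rfl <;> rcases hh with rfl | rfl <;> simp [R, P0] at * <;> omega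

/-! ### the dumbbell -/

def col (n m : ℕ) : Fin n ⊕ Fin m → Fin 4
  | .inl a => if a.val = 0 then 0 else 1
  | .inr b => if b.val = 0 then 2 else 3

theorem col_l0 {n m : ℕ} {a : Fin n} (h : a.val = 0) : col n m (Sum.inl a) = 0 := if_pos h
theorem col_l1 {n m : ℕ} {a : Fin n} (h : ¬ a.val = 0) : col n m (Sum.inl a) = 1 := if_neg h
theorem col_r0 {n m : ℕ} {a : Fin m} (h : a.val = 0) : col n m (Sum.inr a) = 2 := if_pos h
theorem col_r1 {n m : ℕ} {a : Fin m} (h : ¬ a.val = 0) : col n m (Sum.inr a) = 3 := if_neg h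

theorem cnt_univ0 (N M : ℕ) : cnt (col (N+1) (M+1)) 0 univ = 1 := by
  unfold cnt
  rw [Finset.card_eq_one]
  refine ⟨Sum.inl 0, ?_⟩
  ext x
  rcases x with a | a
  · by_cases h : a.val = 0
    · have : a = 0 := Fin.ext h
      simp [col, this]
    · have : a ≠ 0 := fun hc => h (by rw [hc]; rfl)
      simp [col, this]
  · by_cases h : a = 0 <;> simp [col, h]

theorem cnt_univ2 (N M : ℕ) : cnt (col (N+1) (M+1)) 2 univ = 1 := by
  unfold cnt
  rw [Finset.card_eq_one]
  refine ⟨Sum.inr 0, ?_⟩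
  ext x
  rcases x with a | a
  · by_cases h : a = 0 <;> simp [col, h]
  · by_cases h : a.val = 0
    · have : a = 0 := Fin.ext h
      simp [col, this]
    · have : a ≠ 0 := fun hc => h (by rw [hc]; rfl)
      simp [col, this]

theorem cnt_univ1 (N M : ℕ) : cnt (col (N+1) (M+1)) 1 univ = N := by
  have h : (univ : Finset (Fin (N+1) ⊕ Fin (M+1))).filter (fun x => col (N+1) (M+1) x = 1) =
      ((univ : Finset (Fin (N+1))).erase 0).map ⟨Sum.inl, Sum.inl_injective⟩ := by
    ext x
    rcases x with a | a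
    · by_cases h : a.val = 0
      · have : a = 0 := Fin.ext h
        simp [col, this]
      · have : a ≠ 0 := fun hc => h (by rw [hc]; rfl)
        simp [col, this]
    · by_cases h : a = 0 <;> simp [col, h]
  unfold cnt
  rw [h, Finset.card_map, Finset.card_erase_of_mem (Finset.mem_univ _)]
  simp

theorem cnt_univ3 (N M : ℕ) : cnt (col (N+1) (M+1)) 3 univ = M := by
  have h : (univ : Finset (Fin (N+1) ⊕ Fin (M+1))).filter (fun x => col (N+1) (M+1) x = 3) =
      ((univ : Finset (Fin (M+1))).erase 0).map ⟨Sum.inr, Sum.inr_injective⟩ := by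
    ext x
    rcases x with a | a
    · by_cases h : a = 0 <;> simp [col, h]
    · by_cases h : a.val = 0
      · have : a = 0 := Fin.ext h
        simp [col, this]
      · have : a ≠ 0 := fun hc => h (by rw [hc]; rfl)
        simp [col, this]
  unfold cnt
  rw [h, Finset.card_map, Finset.card_erase_of_mem (Finset.mem_univ _)]
  simp

theorem cnt_pair {V : Type*} [DecidableEq V] (c : V → Fin 4) (t : Fin 4) {u v : V} (h : u ≠ v) :
    cnt c t ({u, v} : Finset V) = (if c u = t then 1 else 0) + (if c v = t then 1 else 0) := by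
  unfold cnt
  by_cases h1 : c u = t <;> by_cases h2 : c v = t <;>
    simp [Finset.filter_insert, Finset.filter_singleton, h1, h2, h]

theorem step_fam (N M : ℕ) {P P' : ℕ → ℕ → ℕ → ℕ → Prop} (mono : Mono P) (mono' : Mono P')
    (box : ∀ e i h j, P e i h j → e ≤ 1 ∧ i ≤ N ∧ h ≤ 1 ∧ j ≤ M)
    (hs : Step N M P P') :
    nf (fam (col (N+1) (M+1)) P) = fam (col (N+1) (M+1)) P' := by
  apply nf_fam _ _ _ mono mono'
  · rw [cnt_univ0, cnt_univ1, cnt_univ2, cnt_univ3]
    exact box
  · exact hs.1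
  · rw [cnt_univ0, cnt_univ1, cnt_univ2, cnt_univ3]
    exact hs.2

theorem dumbbell_eq (N M : ℕ) (hN : 1 ≤ N) (hM : 1 ≤ M) :
    dumbbell (N+1) (M+1) = fam (col (N+1) (M+1)) (P0 N M) := by
  ext F
  constructor
  · rintro ⟨u, v, huv, hF⟩
    have hne : u ≠ v := huv.ne
    have hsub : F ⊆ {u, v} := by
      intro x hx
      rcases hF x hx with h | h <;> simp [h]
    have hP : P0 N M (cnt (col (N+1) (M+1)) 0 {u, v}) (cnt (col (N+1) (M+1)) 1 {u, v})
        (cnt (col (N+1) (M+1)) 2 {u, v}) (cnt (col (N+1) (M+1)) 3 {u, v}) := by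
      rw [cnt_pair _ _ hne, cnt_pair _ _ hne, cnt_pair _ _ hne, cnt_pair _ _ hne]
      rcases u with a | a <;> rcases v with b | b
      · have hab : a.val ≠ b.val := fun h => huv (Fin.ext h)
        have h1 := a.2
        have h2 := b.2
        rcases Nat.eq_zero_or_pos a.val with ha | ha <;> rcases Nat.eq_zero_or_pos b.val with hb | hb
        · omega
        · rw [col_l0 ha, col_l1 (by omega)]; simp [P0]; omega
        · rw [col_l0 hb, col_l1 (by omega)]; simp [P0]; omega
        · rw [col_l1 (by omega), col_l1 (by omega)]; simp [P0]; omega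
      · obtain ⟨ha, hb⟩ := huv
        rw [col_l0 ha, col_r0 hb]; simp [P0]
      · obtain ⟨ha, hb⟩ := huv
        rw [col_r0 ha, col_l0 hb]; simp [P0]
      · have hab : a.val ≠ b.val := fun h => huv (Fin.ext h)
        have h1 := a.2
        have h2 := b.2
        rcases Nat.eq_zero_or_pos a.val with ha | ha <;> rcases Nat.eq_zero_or_pos b.val with hb | hb
        · omega
        · rw [col_r0 ha, col_r1 (by omega)]; simp [P0]; omega
        · rw [col_r0 hb, col_r1 (by omega)]; simp [P0]; omega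
        · rw [col_r1 (by omega), col_r1 (by omega)]; simp [P0]; omega
    exact mono0 N M _ _ _ _ _ _ _ _ (cnt_mono _ 0 hsub) (cnt_mono _ 1 hsub) (cnt_mono _ 2 hsub)
      (cnt_mono _ 3 hsub) hP
  · intro hF
    have hcard := card_eq_cnt (col (N+1) (M+1)) F
    have hF' : P0 N M (cnt (col (N+1) (M+1)) 0 F) (cnt (col (N+1) (M+1)) 1 F)
        (cnt (col (N+1) (M+1)) 2 F) (cnt (col (N+1) (M+1)) 3 F) := hF
    have hle : F.card ≤ 2 := by
      rw [hcard]
      unfold P0 at hF'
      omega
    rcases Nat.lt_or_ge F.card 1 with h0 | h1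
    · have : F = ∅ := Finset.card_eq_zero.1 (by omega)
      subst this
      refine ⟨Sum.inl 0, Sum.inr 0, ?_, ?_⟩
      · exact ⟨rfl, rfl⟩
      · intro x hx
        simp at hx
    rcases Nat.lt_or_ge F.card 2 with h2 | h2
    · obtain ⟨x, hx⟩ := Finset.card_eq_one.1 (show F.card = 1 by omega)
      subst hx
      rcases x with a | a
      · by_cases ha : a.val = 0
        · refine ⟨Sum.inl a, Sum.inl ⟨1, by omega⟩, ?_, ?_⟩
          · intro h
            have h' : a.val = 1 := by rw [h]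
            omega
          · intro x hx
            left
            simpa using hx
        · refine ⟨Sum.inl a, Sum.inl ⟨0, by omega⟩, ?_, ?_⟩
          · intro h
            have h' : a.val = 0 := by rw [h]
            omega
          · intro x hx
            left
            simpa using hx
      · by_cases ha : a.val = 0
        · refine ⟨Sum.inr a, Sum.inr ⟨1, by omega⟩, ?_, ?_⟩
          · intro h
            have h' : a.val = 1 := by rw [h]
            omega
          · intro x hx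
            left
            simpa using hx
        · refine ⟨Sum.inr a, Sum.inr ⟨0, by omega⟩, ?_, ?_⟩
          · intro h
            have h' : a.val = 0 := by rw [h]
            omega
          · intro x hx
            left
            simpa using hx
    · obtain ⟨u, v, hne, hx⟩ := Finset.card_eq_two.1 (show F.card = 2 by omega)
      subst hx
      rw [cnt_pair _ _ hne, cnt_pair _ _ hne, cnt_pair _ _ hne, cnt_pair _ _ hne] at hF'
      refine ⟨u, v, ?_, ?_⟩
      · rcases u with a | a <;> rcases v with b | b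
        · intro h
          exact hne (by rw [h])
        · rcases Nat.eq_zero_or_pos a.val with ha | ha <;>
            rcases Nat.eq_zero_or_pos b.val with hb | hb
          · exact ⟨ha, hb⟩
          · rw [col_l0 ha, col_r1 (by omega)] at hF'; simp [P0] at hF'
          · rw [col_r0 hb, col_l1 (by omega)] at hF'; simp [P0] at hF'
          · rw [col_l1 (by omega), col_r1 (by omega)] at hF'; simp [P0] at hF'
        · rcases Nat.eq_zero_or_pos a.val with ha | ha <;>
            rcases Nat.eq_zero_or_pos b.val with hb | hb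
          · exact ⟨ha, hb⟩
          · rw [col_r0 ha, col_l1 (by omega)] at hF'; simp [P0] at hF'
          · rw [col_l0 hb, col_r1 (by omega)] at hF'; simp [P0] at hF'
          · rw [col_r1 (by omega), col_l1 (by omega)] at hF'; simp [P0] at hF'
        · intro h
          exact hne (by rw [h])
      · intro x hx
        simpa using hx

theorem iter_lemma (N M : ℕ) (hN : 1 ≤ N) (hM : 1 ≤ M) (hNM : 3 ≤ N + M) :
    nf^[1] (dumbbell (N+1) (M+1)) = fam (col (N+1) (M+1)) (P1 N M) ∧
    nf^[2] (dumbbell (N+1) (M+1)) = fam (col (N+1) (M+1)) (P2 N M) ∧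
    nf^[3] (dumbbell (N+1) (M+1)) = fam (col (N+1) (M+1)) (P3 N M) ∧
    nf^[4] (dumbbell (N+1) (M+1)) = fam (col (N+1) (M+1)) (P4 N M) ∧
    (∀ t, t + 2 ≤ N + M →
      nf^[5+t] (dumbbell (N+1) (M+1)) = fam (col (N+1) (M+1)) (R N M (N+M-t))) ∧
    nf^[N+M+4] (dumbbell (N+1) (M+1)) = dumbbell (N+1) (M+1) := by
  have h1 : nf^[1] (dumbbell (N+1) (M+1)) = fam (col (N+1) (M+1)) (P1 N M) := by
    rw [Function.iterate_one, dumbbell_eq N M hN hM]
    exact step_fam N M (mono0 N M) (mono1 N M) (fun e i h j hp => by unfold P0 at hp; omega)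
      (step01 N M hN hM hNM)
  have h2 : nf^[2] (dumbbell (N+1) (M+1)) = fam (col (N+1) (M+1)) (P2 N M) := by
    rw [Function.iterate_succ_apply', h1]
    exact step_fam N M (mono1 N M) (mono2 N M) (fun e i h j hp => by unfold P1 at hp; omega)
      (step12 N M hN hM hNM)
  have h3 : nf^[3] (dumbbell (N+1) (M+1)) = fam (col (N+1) (M+1)) (P3 N M) := by
    rw [Function.iterate_succ_apply', h2]
    exact step_fam N M (mono2 N M) (mono3 N M) (fun e i h j hp => by unfold P2 at hp; omega)
      (step23 N M hN hM hNM)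
  have h4 : nf^[4] (dumbbell (N+1) (M+1)) = fam (col (N+1) (M+1)) (P4 N M) := by
    rw [Function.iterate_succ_apply', h3]
    exact step_fam N M (mono3 N M) (mono4 N M) (fun e i h j hp => by unfold P3 at hp; omega)
      (step34 N M hN hM hNM)
  have h5 : ∀ t, t + 2 ≤ N + M →
      nf^[5+t] (dumbbell (N+1) (M+1)) = fam (col (N+1) (M+1)) (R N M (N+M-t)) := by
    intro t
    induction t with
    | zero =>
      intro _
      show nf^[4+1] (dumbbell (N+1) (M+1)) = _
      rw [Function.iterate_succ_apply', h4]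
      exact step_fam N M (mono4 N M) (monoR N M _) (fun e i h j hp => by unfold P4 at hp; omega)
        (step4R N M hN hM hNM)
    | succ t ih =>
      intro ht
      show nf^[(5+t)+1] (dumbbell (N+1) (M+1)) = _
      rw [Function.iterate_succ_apply', ih (by omega)]
      have hs : N + M - t = (N + M - (t+1)) + 1 := by omega
      rw [hs]
      exact step_fam N M (monoR N M _) (monoR N M _) (fun e i h j hp => by unfold R at hp; omega)
        (stepRR N M _ hN hM (by omega) (by omega))
  refine ⟨h1, h2, h3, h4, h5, ?_⟩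
  have h6 := h5 (N+M-2) (by omega)
  have e1 : N + M + 4 = (5 + (N+M-2)) + 1 := by omega
  rw [e1, Function.iterate_succ_apply', h6]
  have e2 : N + M - (N + M - 2) = 2 := by omega
  rw [e2, dumbbell_eq N M hN hM]
  exact step_fam N M (monoR N M _) (mono0 N M) (fun e i h j hp => by unfold R at hp; omega)
    (stepR0 N M hN hM hNM)

theorem dumbbell_card_le {n m : ℕ} {F : Finset (Fin n ⊕ Fin m)} (h : F ∈ dumbbell n m) :
    F.card ≤ 2 := by
  obtain ⟨u, v, _, hF⟩ := h
  have hsub : F ⊆ {u, v} := by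
    intro x hx
    rcases hF x hx with h | h <;> simp [h]
  exact (Finset.card_le_card hsub).trans Finset.card_le_two

theorem not_iso_of_big {n m : ℕ} {Δ : Set (Finset (Fin n ⊕ Fin m))} {F : Finset (Fin n ⊕ Fin m)}
    (hF : F ∈ Δ) (hc : 3 ≤ F.card) : ¬ Iso Δ (dumbbell n m) := by
  rintro ⟨π, hπ⟩
  have h1 := dumbbell_card_le ((hπ F).1 hF)
  rw [Finset.card_map] at h1
  omega

theorem not_iso_fam (N M : ℕ) (P : ℕ → ℕ → ℕ → ℕ → Prop) (e i h j : ℕ) (hP : P e i h j)
    (hb : e ≤ 1 ∧ i ≤ N ∧ h ≤ 1 ∧ j ≤ M) (hc : 3 ≤ e + i + h + j) :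
    ¬ Iso (fam (col (N+1) (M+1)) P) (dumbbell (N+1) (M+1)) := by
  obtain ⟨F, h0, h1, h2, h3⟩ := exists_cnt (col (N+1) (M+1)) e i h j
    (by rw [cnt_univ0]; exact hb.1) (by rw [cnt_univ1]; exact hb.2.1)
    (by rw [cnt_univ2]; exact hb.2.2.1) (by rw [cnt_univ3]; exact hb.2.2.2)
  apply not_iso_of_big (F := F)
  · show P _ _ _ _
    rw [h0, h1, h2, h3]
    exact hP
  · rw [card_eq_cnt (col (N+1) (M+1)), h0, h1, h2, h3]
    exact hc

theorem not_iso_one (N M : ℕ) (hNM : 3 ≤ N + M) :
    ¬ Iso (fam (col (N+1) (M+1)) (P1 N M)) (dumbbell (N+1) (M+1)) := by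
  rintro ⟨π, hπ⟩
  have key : ∀ u v : Fin (N+1) ⊕ Fin (M+1), (dumbbellGraph (N+1) (M+1)).Adj u v →
      (π.symm u).isLeft ≠ (π.symm v).isLeft := by
    intro u v huv hc
    have hne : π.symm u ≠ π.symm v := fun h => huv.ne (π.symm.injective h)
    have hmem : ({π.symm u, π.symm v} : Finset _) ∈ fam (col (N+1) (M+1)) (P1 N M) := by
      rw [hπ]
      refine ⟨u, v, huv, ?_⟩
      intro x hx
      simpa using hx
    have hm : P1 N M _ _ _ _ := hmem
    rw [cnt_pair _ _ hne, cnt_pair _ _ hne, cnt_pair _ _ hne, cnt_pair _ _ hne] at hm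
    revert hm hne hc
    generalize π.symm u = x
    generalize π.symm v = y
    intro hc hne hm
    rcases x with a | a <;> rcases y with b | b
    · rcases Nat.eq_zero_or_pos a.val with ha | ha <;> rcases Nat.eq_zero_or_pos b.val with hb | hb
      · exact hne (by rw [Fin.ext (ha.trans hb.symm)])
      · rw [col_l0 ha, col_l1 (by omega)] at hm; simp [P1] at hm
      · rw [col_l0 hb, col_l1 (by omega)] at hm; simp [P1] at hm
      · rw [col_l1 (by omega), col_l1 (by omega)] at hm; simp [P1] at hm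
    · simp at hc
    · simp at hc
    · rcases Nat.eq_zero_or_pos a.val with ha | ha <;> rcases Nat.eq_zero_or_pos b.val with hb | hb
      · exact hne (by rw [Fin.ext (ha.trans hb.symm)])
      · rw [col_r0 ha, col_r1 (by omega)] at hm; simp [P1] at hm
      · rw [col_r0 hb, col_r1 (by omega)] at hm; simp [P1] at hm
      · rw [col_r1 (by omega), col_r1 (by omega)] at hm; simp [P1] at hm
  have fin : ∀ a b c : Bool, a ≠ b → a ≠ c → b ≠ c → False := by decide
  rcases Nat.lt_or_ge N 2 with hN | hN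
  · have hM : 2 ≤ M := by omega
    refine fin _ _ _ (key (Sum.inr ⟨0, by omega⟩) (Sum.inr ⟨1, by omega⟩) ?_)
      (key (Sum.inr ⟨0, by omega⟩) (Sum.inr ⟨2, by omega⟩) ?_)
      (key (Sum.inr ⟨1, by omega⟩) (Sum.inr ⟨2, by omega⟩) ?_)
    · show (_ : Fin (M+1)) ≠ _
      simp
    · show (_ : Fin (M+1)) ≠ _
      simp
    · show (_ : Fin (M+1)) ≠ _
      simp
  · refine fin _ _ _ (key (Sum.inl ⟨0, by omega⟩) (Sum.inl ⟨1, by omega⟩) ?_)
      (key (Sum.inl ⟨0, by omega⟩) (Sum.inl ⟨2, by omega⟩) ?_)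
      (key (Sum.inl ⟨1, by omega⟩) (Sum.inl ⟨2, by omega⟩) ?_)
    · show (_ : Fin (N+1)) ≠ _
      simp
    · show (_ : Fin (N+1)) ≠ _
      simp
    · show (_ : Fin (N+1)) ≠ _
      simp

theorem not_iso_small (N M : ℕ) (hN : 1 ≤ N) (hM : 1 ≤ M) (hNM : 3 ≤ N + M) (q : ℕ)
    (h0 : 0 < q) (hq : q < N + M + 4) :
    ¬ Iso (nf^[q] (dumbbell (N+1) (M+1))) (dumbbell (N+1) (M+1)) := by
  obtain ⟨h1, h2, h3, h4, h5, -⟩ := iter_lemma N M hN hM hNM
  have hcases : q = 1 ∨ q = 2 ∨ q = 3 ∨ q = 4 ∨ ∃ t, q = 5 + t := by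
    rcases Nat.lt_or_ge q 5 with h | h
    · omega
    · right; right; right; right
      exact ⟨q - 5, by omega⟩
  rcases hcases with rfl | rfl | rfl | rfl | ⟨t, rfl⟩
  · rw [h1]
    exact not_iso_one N M hNM
  · rw [h2]
    rcases Nat.lt_or_ge N 2 with hN2 | hN2
    · exact not_iso_fam N M _ 0 0 1 2 (by unfold P2; omega) (by omega) (by omega)
    · exact not_iso_fam N M _ 1 2 0 0 (by unfold P2; omega) (by omega) (by omega)
  · rw [h3]
    rcases Nat.lt_or_ge N 2 with hN2 | hN2
    · exact not_iso_fam N M _ 0 1 1 1 (by unfold P3; omega) (by omega) (by omega)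
    · exact not_iso_fam N M _ 1 1 0 1 (by unfold P3; omega) (by omega) (by omega)
  · rw [h4]
    exact not_iso_fam N M _ 1 1 1 0 (by unfold P4; omega) (by omega) (by omega)
  · rw [h5 t (by omega)]
    rcases Nat.lt_or_ge (N + M - t) 4 with h | h
    · rcases Nat.lt_or_ge (N + M - t) 3 with h' | h'
      · rcases Nat.lt_or_ge N 2 with hN2 | hN2
        · exact not_iso_fam N M _ 0 0 1 2 (by unfold R; omega) (by omega) (by omega)
        · exact not_iso_fam N M _ 1 2 0 0 (by unfold R; omega) (by omega) (by omega)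
      · rcases Nat.lt_or_ge N 2 with hN2 | hN2
        · exact not_iso_fam N M _ 0 1 1 1 (by unfold R; omega) (by omega) (by omega)
        · exact not_iso_fam N M _ 1 1 0 1 (by unfold R; omega) (by omega) (by omega)
    · exact not_iso_fam N M _ 1 1 1 0 (by unfold R; omega) (by omega) (by omega)

/-- For all `n, m ≥ 2` with `(n,m) ≠ (2,2)` and every field `k`, the NF-number of the dumbbell
graph `B_{n,m}` is `n + m + 2`. -/
theorem result (k : Type*) [Field k] (n m : ℕ) (hn : 2 ≤ n) (hm : 2 ≤ m)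
    (hnm : (n, m) ≠ (2, 2)) :
    IsLeast {q : ℕ | 0 < q ∧ Iso ((delta k)^[q] (dumbbell n m)) (dumbbell n m)} (n + m + 2) := by
  obtain ⟨N, rfl⟩ : ∃ N, n = N + 1 := ⟨n - 1, by omega⟩
  obtain ⟨M, rfl⟩ : ∃ M, m = M + 1 := ⟨m - 1, by omega⟩
  have hN : 1 ≤ N := by omega
  have hM : 1 ≤ M := by omega
  have hNM : 3 ≤ N + M := by
    by_contra hc
    have e1 : N = 1 := by omega
    have e2 : M = 1 := by omega
    subst e1
    subst e2
    exact hnm rfl
  have hd : (delta k : Set (Finset (Fin (N+1) ⊕ Fin (M+1))) → _) = nf :=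
    funext (delta_eq_nf k)
  have e : N + 1 + (M + 1) + 2 = N + M + 4 := by omega
  rw [hd, e]
  constructor
  · refine ⟨by omega, ?_⟩
    rw [(iter_lemma N M hN hM hNM).2.2.2.2.2]
    exact ⟨Equiv.refl _, fun F => by simp⟩
  · rintro q ⟨hq0, hq⟩
    by_contra hc
    exact not_iso_small N M hN hM hNM q hq0 (by omega) hq

end Pool.Agent.Results.MP_0a7d83_co.DumbbellNF
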